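import Pool.Agent.H39.ND.Master

/-!
The one step master identity for the intervals `[-x, x]`, `(0, x]`, `[-x, 0)`, with `Nat.card`.
-/

set_option autoImplicit false

namespace Pool.Agent.H39.ND

open Finset Pool.Agent.H30 Pool.Agent.H30.PD

/-- two-sided -/
noncomputable def F2 (W : Set ℤ) (L : ℕ) (x : ℝ) : ℝ :=
  (Nat.card {m : ℤ | |(m : ℝ)| ≤ x ∧ T^[L] m ∈ W} : ℝ) / x

/-- positive side -/
noncomputable def Fp (W : Set ℤ) (L : ℕ) (x : ℝ) : ℝ :=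
  (Nat.card {m : ℤ | 0 < m ∧ (m : ℝ) ≤ x ∧ T^[L] m ∈ W} : ℝ) / x

/-- negative side -/
noncomputable def Fm (W : Set ℤ) (L : ℕ) (x : ℝ) : ℝ :=
  (Nat.card {m : ℤ | m < 0 ∧ -x ≤ (m : ℝ) ∧ T^[L] m ∈ W} : ℝ) / x

lemma F2_eq (W : Set ℤ) (L : ℕ) (x : ℝ) : F2 W L x = FJ (-1) 1 W L x := by
  classical
  unfold F2 FJ cntW
  congr 2
  rw [Nat.card_coe_set_eq, ← Set.ncard_coe_finset]
  congr 1
  ext m
  simp only [Set.mem_setOf_eq, Finset.coe_filter, mem_JJ, abs_le]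
  constructor
  · rintro ⟨⟨h1, h2⟩, h3⟩
    exact ⟨⟨by linarith, by linarith⟩, h3⟩
  · rintro ⟨⟨h1, h2⟩, h3⟩
    exact ⟨⟨by linarith, by linarith⟩, h3⟩

lemma Fp_sub (W : Set ℤ) (L : ℕ) {x : ℝ} (hx : 0 < x) : |Fp W L x - FJ 0 1 W L x| ≤ 1 / x := by
  classical
  have hset : {m : ℤ | 0 < m ∧ (m : ℝ) ≤ x ∧ T^[L] m ∈ W} =
      (((JJ 0 1 x).filter fun m => T^[L] m ∈ W).erase 0 : Finset ℤ) := by
    ext m
    simp only [Set.mem_setOf_eq, Finset.coe_erase, Finset.coe_filter, mem_JJ, Set.mem_diff,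
      Set.mem_singleton_iff, zero_mul, one_mul]
    constructor
    · rintro ⟨h1, h2, h3⟩
      exact ⟨⟨⟨by exact_mod_cast h1.le, h2⟩, h3⟩, h1.ne'⟩
    · rintro ⟨⟨⟨h1, h2⟩, h3⟩, h4⟩
      have h1' : 0 ≤ m := by exact_mod_cast h1
      exact ⟨lt_of_le_of_ne h1' (Ne.symm h4), h2, h3⟩
  unfold Fp FJ cntW
  rw [← sub_div, abs_div, abs_of_pos hx]
  apply div_le_div_of_nonneg_right _ hx.le
  rw [hset, Nat.card_coe_set_eq, Set.ncard_coe_finset]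
  have h1 := Finset.card_erase_le (s := (JJ 0 1 x).filter fun m => T^[L] m ∈ W) (a := (0 : ℤ))
  have h2 := Finset.pred_card_le_card_erase (s := (JJ 0 1 x).filter fun m => T^[L] m ∈ W) (a := (0 : ℤ))
  have h1' : ((((JJ 0 1 x).filter fun m => T^[L] m ∈ W).erase 0).card : ℝ) ≤
    (((JJ 0 1 x).filter fun m => T^[L] m ∈ W).card : ℝ) := by exact_mod_cast h1
  have h2' : (((JJ 0 1 x).filter fun m => T^[L] m ∈ W).card : ℝ) ≤
      ((((JJ 0 1 x).filter fun m => T^[L] m ∈ W).erase 0).card : ℝ) + 1 := by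
    have : ((JJ 0 1 x).filter fun m => T^[L] m ∈ W).card ≤
      (((JJ 0 1 x).filter fun m => T^[L] m ∈ W).erase 0).card + 1 := by omega
    exact_mod_cast this
  rw [abs_le]; constructor <;> linarith

lemma Fm_sub (W : Set ℤ) (L : ℕ) {x : ℝ} (hx : 0 < x) : |Fm W L x - FJ (-1) 0 W L x| ≤ 1 / x := by
  classical
  have hset : {m : ℤ | m < 0 ∧ -x ≤ (m : ℝ) ∧ T^[L] m ∈ W} =
      (((JJ (-1) 0 x).filter fun m => T^[L] m ∈ W).erase 0 : Finset ℤ) := by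
    ext m
    simp only [Set.mem_setOf_eq, Finset.coe_erase, Finset.coe_filter, mem_JJ, Set.mem_diff,
      Set.mem_singleton_iff, zero_mul, neg_one_mul]
    constructor
    · rintro ⟨h1, h2, h3⟩
      exact ⟨⟨⟨h2, by exact_mod_cast h1.le⟩, h3⟩, h1.ne⟩
    · rintro ⟨⟨⟨h1, h2⟩, h3⟩, h4⟩
      have h2' : m ≤ 0 := by exact_mod_cast h2
      exact ⟨lt_of_le_of_ne h2' h4, h1, h3⟩
  unfold Fm FJ cntW
  rw [← sub_div, abs_div, abs_of_pos hx]
  apply div_le_div_of_nonneg_right _ hx.le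
  rw [hset, Nat.card_coe_set_eq, Set.ncard_coe_finset]
  have h1 := Finset.card_erase_le (s := (JJ (-1) 0 x).filter fun m => T^[L] m ∈ W) (a := (0 : ℤ))
  have h2 := Finset.pred_card_le_card_erase (s := (JJ (-1) 0 x).filter fun m => T^[L] m ∈ W) (a := (0 : ℤ))
  have h1' : ((((JJ (-1) 0 x).filter fun m => T^[L] m ∈ W).erase 0).card : ℝ) ≤
    (((JJ (-1) 0 x).filter fun m => T^[L] m ∈ W).card : ℝ) := by exact_mod_cast h1
  have h2' : (((JJ (-1) 0 x).filter fun m => T^[L] m ∈ W).card : ℝ) ≤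
      ((((JJ (-1) 0 x).filter fun m => T^[L] m ∈ W).erase 0).card : ℝ) + 1 := by
    have : ((JJ (-1) 0 x).filter fun m => T^[L] m ∈ W).card ≤
      (((JJ (-1) 0 x).filter fun m => T^[L] m ∈ W).erase 0).card + 1 := by omega
    exact_mod_cast this
  rw [abs_le]; constructor <;> linarith

/-- **two-sided intervals** -/
theorem master_two (B : ℕ) : ∃ C : ℝ, 0 < C ∧ ∀ (W : Set ℤ) (l : ℕ) (x : ℝ), 1 ≤ l → 2 ^ l ≤ x →
    |F2 W (l + 1) x - 1 / 2 * F2 W l (x / 2) - 1 / 2 * F2 W l (3 * x / 2)| ≤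
      C * (1 / (l : ℝ) ^ B + 2 ^ l / x) := by
  obtain ⟨C, hC, h⟩ := master B
  refine ⟨C, hC, fun W l x hl hx => ?_⟩
  rw [F2_eq, F2_eq, F2_eq]
  exact h (-1) 1 le_rfl (by norm_num) le_rfl W l x hl hx

lemma one_side {f g : Set ℤ → ℕ → ℝ → ℝ} {C : ℝ} (hC : 0 < C)
    (h : ∀ W L x, 0 < x → |f W L x - g W L x| ≤ 1 / x) (W : Set ℤ) {l : ℕ} {x B : ℝ} (hB : 0 ≤ B)
    (hx : 2 ^ l ≤ x)
    (hg : |g W (l + 1) x - 1 / 2 * g W l (x / 2) - 1 / 2 * g W l (3 * x / 2)| ≤ C * (B + 2 ^ l / x)) :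
    |f W (l + 1) x - 1 / 2 * f W l (x / 2) - 1 / 2 * f W l (3 * x / 2)| ≤
      (C + 3) * (B + 2 ^ l / x) := by
  have hx0 : 0 < x := lt_of_lt_of_le (by positivity) hx
  have h1 := h W (l + 1) x hx0
  have h2 := h W l (x / 2) (by positivity)
  have h3 := h W l (3 * x / 2) (by positivity)
  have e0 : 1 / x ≤ 2 ^ l / x := by
    apply div_le_div_of_nonneg_right _ hx0.le
    exact one_le_pow₀ (by norm_num)
  have e1 : 1 / (x / 2) = 2 * (1 / x) := by field_simp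
  have e2 : 1 / (3 * x / 2) ≤ 1 / x := by
    apply div_le_div_of_nonneg_left (by norm_num) hx0
    linarith
  rw [e1] at h2
  have h3' := h3.trans e2
  rw [abs_le] at *
  constructor <;> nlinarith

/-- **positive integers** -/
theorem master_pos (B : ℕ) : ∃ C : ℝ, 0 < C ∧ ∀ (W : Set ℤ) (l : ℕ) (x : ℝ), 1 ≤ l → 2 ^ l ≤ x →
    |Fp W (l + 1) x - 1 / 2 * Fp W l (x / 2) - 1 / 2 * Fp W l (3 * x / 2)| ≤
      C * (1 / (l : ℝ) ^ B + 2 ^ l / x) := by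
  obtain ⟨C, hC, h⟩ := master B
  refine ⟨C + 3, by positivity, fun W l x hl hx => ?_⟩
  exact one_side hC (fun W L x hx => Fp_sub W L hx) W (by positivity) hx
    (h 0 1 (by norm_num) (by norm_num) le_rfl W l x hl hx)

/-- **negative integers** -/
theorem master_neg (B : ℕ) : ∃ C : ℝ, 0 < C ∧ ∀ (W : Set ℤ) (l : ℕ) (x : ℝ), 1 ≤ l → 2 ^ l ≤ x →
    |Fm W (l + 1) x - 1 / 2 * Fm W l (x / 2) - 1 / 2 * Fm W l (3 * x / 2)| ≤
      C * (1 / (l : ℝ) ^ B + 2 ^ l / x) := by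
  obtain ⟨C, hC, h⟩ := master B
  refine ⟨C + 3, by positivity, fun W l x hl hx => ?_⟩
  exact one_side hC (fun W L x hx => Fm_sub W L hx) W (by positivity) hx
    (h (-1) 0 le_rfl (by norm_num) (by norm_num) W l x hl hx)

end Pool.Agent.H39.ND
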