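import Pool.Agent.H39.ND.Words2

/-!
Counting the integers `m` in an interval with `T^[L] m ∈ W` by their endpoint.
-/

set_option autoImplicit false

namespace Pool.Agent.H39.ND

open Finset Pool.Agent.H30 Pool.Agent.H30.PD

/-- the integers in `[αx, βx]` -/
noncomputable def JJ (α β x : ℝ) : Finset ℤ := Finset.Icc ⌈α * x⌉ ⌊β * x⌋

lemma mem_JJ {α β x : ℝ} {m : ℤ} : m ∈ JJ α β x ↔ α * x ≤ m ∧ (m : ℝ) ≤ β * x := by
  unfold JJ
  rw [Finset.mem_Icc, Int.ceil_le, Int.le_floor]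

/-- the constant of a word -/
lemma c_le {L : ℕ} {p : ℕ × ℕ} (hp : p ∈ D L) : (p.2 : ℝ) ≤ 2 ^ L * 3 ^ p.1 := by
  have h := c_mul_le hp
  have h1 : p.2 ≤ p.2 * 2 ^ p.1 := Nat.le_mul_of_pos_right _ (by positivity)
  exact_mod_cast h1.trans h

open Classical in
/-- the `m` in the interval following the word `p` to an element of `W` -/
noncomputable def Aset (α β : ℝ) (W : Set ℤ) (L : ℕ) (x : ℝ) (p : ℕ × ℕ) : Finset ℤ :=
  (JJ α β x).filter fun m => T^[L] m ∈ W ∧ (3 : ℤ) ^ p.1 * m = 2 ^ L * T^[L] m - p.2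

open Classical in
/-- the endpoints `M ∈ W` in the rescaled interval, compatible with `p` -/
noncomputable def Bset (α β : ℝ) (W : Set ℤ) (L : ℕ) (x : ℝ) (p : ℕ × ℕ) : Finset ℤ :=
  (JJ α β (3 ^ p.1 * x / 2 ^ L)).filter fun M => M ∈ W ∧ (3 : ℤ) ^ p.1 ∣ 2 ^ L * M - p.2

lemma card_le_one_of_class {k L : ℕ} {c : ℤ} {s : Finset ℤ} (h : ∀ M ∈ s, (3 : ℤ) ^ k ∣ 2 ^ L * M - c)
    (h' : ∀ M ∈ s, ∀ M' ∈ s, (M : ℝ) - M' < 3 ^ k) : s.card ≤ 1 := by
  rw [Finset.card_le_one]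
  intro a ha b hb
  have h1 : (3 : ℤ) ^ k ∣ 2 ^ L * (a - b) := by
    have := dvd_sub (h a ha) (h b hb)
    rwa [show 2 ^ L * a - c - (2 ^ L * b - c) = 2 ^ L * (a - b) by ring] at this
  have hcop : IsCoprime ((3 : ℤ) ^ k) ((2 : ℤ) ^ L) := by
    apply IsCoprime.pow
    exact ⟨1, -1, by norm_num⟩
  have h2 : (3 : ℤ) ^ k ∣ a - b := hcop.dvd_of_dvd_mul_left h1
  have h3 : |a - b| < (3 : ℤ) ^ k := by
    have e1 := h' a ha b hb
    have e2 := h' b hb a ha
    have e1' : a - b < (3 : ℤ) ^ k := by exact_mod_cast e1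
    have e2' : b - a < (3 : ℤ) ^ k := by exact_mod_cast e2
    rw [abs_lt]; constructor <;> linarith
  have := Int.eq_zero_of_abs_lt_dvd h2 h3
  linarith

lemma card_A_B {α β : ℝ} (hαβ : α ≤ β) (W : Set ℤ) {L : ℕ} {x : ℝ} (hx : 0 < x) {p : ℕ × ℕ}
    (hp : p ∈ D L) :
    |((Aset α β W L x p).card : ℝ) - ((Bset α β W L x p).card : ℝ)| ≤ 1 := by
  classical
  set k := p.1 with hk
  set y : ℝ := 3 ^ k * x / 2 ^ L with hy
  set h : ℝ := (p.2 : ℝ) / 2 ^ L with hh
  have h2 : (0 : ℝ) < 2 ^ L := by positivity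
  have h3 : (0 : ℝ) < 3 ^ k := by positivity
  have hh0 : 0 ≤ h := by positivity
  have hh1 : h ≤ 3 ^ k := by
    rw [hh, div_le_iff₀ h2]
    linarith [c_le hp]
  -- the image of `A`
  set A' : Finset ℤ := (Aset α β W L x p).image (fun m => T^[L] m) with hA'
  have hcard : A'.card = (Aset α β W L x p).card := by
    apply Finset.card_image_of_injOn
    intro a ha b hb hab
    have ha' := (Finset.mem_filter.1 ha).2.2
    have hb' := (Finset.mem_filter.1 hb).2.2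
    have hab' : T^[L] a = T^[L] b := hab
    have : (3 : ℤ) ^ p.1 * a = 3 ^ p.1 * b := by rw [ha', hb', hab']
    exact mul_left_cancel₀ (by positivity) this
  have hmemA : ∀ M : ℤ, M ∈ A' ↔ M ∈ W ∧ (3 : ℤ) ^ k ∣ 2 ^ L * M - p.2 ∧ α * y + h ≤ M ∧ (M : ℝ) ≤ β * y + h := by
    intro M
    have key : ∀ m : ℤ, (3 : ℤ) ^ k * m = 2 ^ L * M - p.2 → (m : ℝ) = (2 ^ L * M - p.2) / 3 ^ k := by
      intro m hm
      have hm' : (3 : ℝ) ^ k * m = 2 ^ L * M - p.2 := by exact_mod_cast hm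
      rw [← hm']; field_simp
    have lo : ∀ m : ℤ, (3 : ℤ) ^ k * m = 2 ^ L * M - p.2 → (α * x ≤ m ↔ α * y + h ≤ M) := by
      intro m hm
      rw [key m hm, le_div_iff₀ h3, hy, hh]
      rw [show α * (3 ^ k * x / 2 ^ L) + (p.2 : ℝ) / 2 ^ L = (α * x * 3 ^ k + p.2) / 2 ^ L by ring,
        div_le_iff₀ h2]
      constructor <;> intro h <;> linarith
    have up : ∀ m : ℤ, (3 : ℤ) ^ k * m = 2 ^ L * M - p.2 → ((m : ℝ) ≤ β * x ↔ (M : ℝ) ≤ β * y + h) := by
      intro m hm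
      rw [key m hm, div_le_iff₀ h3, hy, hh]
      rw [show β * (3 ^ k * x / 2 ^ L) + (p.2 : ℝ) / 2 ^ L = (β * x * 3 ^ k + p.2) / 2 ^ L by ring,
        le_div_iff₀ h2]
      constructor <;> intro h <;> linarith
    constructor
    · intro hM
      obtain ⟨m, hm, rfl⟩ := Finset.mem_image.1 hM
      obtain ⟨hmJ, hmW, hme⟩ := Finset.mem_filter.1 hm
      have hJ := mem_JJ.1 hmJ
      exact ⟨hmW, ⟨m, hme.symm⟩, (lo m hme).1 hJ.1, (up m hme).1 hJ.2⟩
    · rintro ⟨hMW, ⟨m, hm⟩, h5, h6⟩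
      have hT : T^[L] m = M := T_node hp hm.symm
      refine Finset.mem_image.2 ⟨m, Finset.mem_filter.2 ⟨mem_JJ.2 ⟨(lo m hm.symm).2 h5, (up m hm.symm).2 h6⟩,
        ?_, ?_⟩, hT⟩
      · rw [hT]; exact hMW
      · rw [hT]; exact hm.symm
  have hmemB : ∀ M : ℤ, M ∈ Bset α β W L x p ↔ M ∈ W ∧ (3 : ℤ) ^ k ∣ 2 ^ L * M - p.2 ∧ α * y ≤ M ∧
      (M : ℝ) ≤ β * y := by
    intro M
    unfold Bset
    rw [Finset.mem_filter, mem_JJ]
    tauto
  have hAB : (A' \ Bset α β W L x p).card ≤ 1 := by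
    apply card_le_one_of_class (k := k) (L := L) (c := p.2)
    · intro M hM
      exact ((hmemA M).1 (Finset.mem_sdiff.1 hM).1).2.1
    · have key : ∀ M ∈ A' \ Bset α β W L x p, β * y < M ∧ (M : ℝ) ≤ β * y + h := by
        intro M hM
        obtain ⟨hM1, hM2⟩ := Finset.mem_sdiff.1 hM
        obtain ⟨a1, a2, a3, a4⟩ := (hmemA M).1 hM1
        rw [hmemB] at hM2
        refine ⟨?_, a4⟩
        by_contra hc
        push Not at hc
        exact hM2 ⟨a1, a2, by linarith, hc⟩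
      intro M hM M' hM'
      have e1 := key M hM
      have e2 := key M' hM'
      linarith
  have hBA : (Bset α β W L x p \ A').card ≤ 1 := by
    apply card_le_one_of_class (k := k) (L := L) (c := p.2)
    · intro M hM
      exact ((hmemB M).1 (Finset.mem_sdiff.1 hM).1).2.1
    · have key : ∀ M ∈ Bset α β W L x p \ A', α * y ≤ M ∧ (M : ℝ) < α * y + h := by
        intro M hM
        obtain ⟨hM1, hM2⟩ := Finset.mem_sdiff.1 hM
        obtain ⟨a1, a2, a3, a4⟩ := (hmemB M).1 hM1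
        rw [hmemA] at hM2
        refine ⟨a3, ?_⟩
        by_contra hc
        push Not at hc
        exact hM2 ⟨a1, a2, hc, by linarith⟩
      intro M hM M' hM'
      have e1 := key M hM
      have e2 := key M' hM'
      linarith
  rw [← hcard, abs_sub_le_iff]
  have e1 : A'.card ≤ (Bset α β W L x p).card + 1 := by
    have := Finset.card_le_card_sdiff_add_card (s := A') (t := Bset α β W L x p)
    omega
  have e2 : (Bset α β W L x p).card ≤ A'.card + 1 := by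
    have := Finset.card_le_card_sdiff_add_card (s := Bset α β W L x p) (t := A')
    omega
  have e1' : (A'.card : ℝ) ≤ (Bset α β W L x p).card + 1 := by exact_mod_cast e1
  have e2' : ((Bset α β W L x p).card : ℝ) ≤ A'.card + 1 := by exact_mod_cast e2
  constructor <;> linarith

open Classical in
/-- number of `m` in the interval with `T^[L] m ∈ W` -/
noncomputable def cntW (α β : ℝ) (W : Set ℤ) (L : ℕ) (x : ℝ) : ℕ :=
  ((JJ α β x).filter fun m => T^[L] m ∈ W).card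

lemma cntW_eq (α β : ℝ) (W : Set ℤ) (L : ℕ) (x : ℝ) :
    cntW α β W L x = ∑ p ∈ D L, (Aset α β W L x p).card := by
  classical
  unfold cntW
  rw [← Finset.card_biUnion]
  · congr 1
    ext m
    simp only [Finset.mem_filter, Finset.mem_biUnion, Aset]
    constructor
    · rintro ⟨h1, h2⟩
      obtain ⟨p, hp, h3⟩ := exists_word L m
      exact ⟨p, hp, h1, h2, h3⟩
    · rintro ⟨p, hp, h1, h2, h3⟩
      exact ⟨h1, h2⟩
  · intro p hp q hq hpq
    rw [Function.onFun, Finset.disjoint_left]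
    intro m hm hm'
    have e1 := (Finset.mem_filter.1 hm).2.2
    have e2 := (Finset.mem_filter.1 hm').2.2
    exact hpq (unique_word L m _ hp hq e1 e2)

/-- comparison of the count with the count of the endpoints -/
theorem cntW_sub {α β : ℝ} (hαβ : α ≤ β) (W : Set ℤ) (L : ℕ) {x : ℝ} (hx : 0 < x) :
    |(cntW α β W L x : ℝ) - ∑ p ∈ D L, ((Bset α β W L x p).card : ℝ)| ≤ 2 ^ L := by
  rw [cntW_eq]
  push_cast
  rw [← Finset.sum_sub_distrib]
  calc |∑ p ∈ D L, (((Aset α β W L x p).card : ℝ) - ((Bset α β W L x p).card : ℝ))|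
      ≤ ∑ p ∈ D L, |((Aset α β W L x p).card : ℝ) - ((Bset α β W L x p).card : ℝ)| :=
        Finset.abs_sum_le_sum_abs _ _
    _ ≤ ∑ p ∈ D L, (1 : ℝ) := Finset.sum_le_sum fun p hp => card_A_B hαβ W hx hp
    _ = 2 ^ L := by
        rw [Finset.sum_const, card_D]; simp

end Pool.Agent.H39.ND
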