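import Pool.Agent.H39.ND.CountA
import Pool.Agent.H30.PD.Mix

/-!
The count as a sum over the number of heads; the exact one step identity.
-/

set_option autoImplicit false

namespace Pool.Agent.H39.ND

open Finset Pool.Agent.H30 Pool.Agent.H30.PD

/-- number of words with `k` heads compatible with `u` modulo `3^r` -/
noncomputable def nn (L k r : ℕ) (u : ℤ) : ℕ :=
  ((D L).filter fun p => p.1 = k ∧ (3 : ℤ) ^ r ∣ u - p.2).card

/-- normalised -/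
noncomputable def YY (L k r : ℕ) (u : ℤ) : ℝ := 3 ^ r * (nn L k r u : ℝ) / 2 ^ L

lemma gg_eq (L q r : ℕ) (u : ℤ) : gg L q r u = YY L q q u - YY L q r u := by
  unfold gg YY nn
  rw [sub_div]

lemma YY_nonneg (L k r : ℕ) (u : ℤ) : 0 ≤ YY L k r u := by unfold YY; positivity

lemma nn_zero_of_lt {L k : ℕ} (h : L < k) (r : ℕ) (u : ℤ) : nn L k r u = 0 := by
  unfold nn
  rw [Finset.card_eq_zero, Finset.filter_eq_empty_iff]
  rintro p hp ⟨h1, -⟩
  have := D_le hp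
  omega

lemma YY_zero_of_lt {L k : ℕ} (h : L < k) (r : ℕ) (u : ℤ) : YY L k r u = 0 := by
  unfold YY; rw [nn_zero_of_lt h]; simp

lemma two_mul_dvd (r l : ℕ) (M c : ℤ) :
    ((3 : ℤ) ^ r ∣ 2 ^ (l + 1) * M - 2 * c) ↔ (3 : ℤ) ^ r ∣ 2 ^ l * M - c := by
  have hcop : IsCoprime ((3 : ℤ) ^ r) 2 := by
    apply IsCoprime.pow_left
    exact ⟨1, -1, by norm_num⟩
  rw [show (2 : ℤ) ^ (l + 1) * M - 2 * c = 2 * (2 ^ l * M - c) by ring]
  exact ⟨fun h => hcop.dvd_of_dvd_mul_left h, fun h => h.mul_left _⟩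

/-- the exact one step identity for the coarse counts -/
lemma nn_succ (l k : ℕ) (M : ℤ) :
    nn (l + 1) (k + 1) k (2 ^ (l + 1) * M) = nn l (k + 1) k (2 ^ l * M) + nn l k k (2 ^ l * M) := by
  classical
  unfold nn
  rw [Finset.card_filter, Finset.card_filter, Finset.card_filter, sum_D_succ]
  congr 1
  · apply Finset.sum_congr rfl
    intro p hp
    congr 1
    push_cast
    rw [two_mul_dvd]
  · apply Finset.sum_congr rfl
    intro p hp
    by_cases hk : p.1 = k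
    · have e : ((3 : ℤ) ^ k ∣ 2 ^ (l + 1) * M - ((2 * p.2 + 3 ^ k : ℕ) : ℤ)) ↔
          (3 : ℤ) ^ k ∣ 2 ^ l * M - p.2 := by
        rw [← two_mul_dvd k l M p.2]
        push_cast
        rw [show (2 : ℤ) ^ (l + 1) * M - (2 * p.2 + 3 ^ k) = (2 ^ (l + 1) * M - 2 * p.2) - 3 ^ k by ring]
        exact dvd_sub_self_right
      simp only [hk, true_and, e]
    · simp [hk]

lemma nn_succ_zero (l r : ℕ) (M : ℤ) :
    nn (l + 1) 0 r (2 ^ (l + 1) * M) = nn l 0 r (2 ^ l * M) := by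
  classical
  unfold nn
  rw [Finset.card_filter, Finset.card_filter, sum_D_succ]
  have e2 : ∑ p ∈ D l, (if p.1 + 1 = 0 ∧ (3 : ℤ) ^ r ∣ 2 ^ (l + 1) * M - ((2 * p.2 + 3 ^ p.1 : ℕ) : ℤ)
      then 1 else 0) = 0 := by
    apply Finset.sum_eq_zero
    intro p hp
    simp
  simp only at e2 ⊢
  rw [e2, add_zero]
  apply Finset.sum_congr rfl
  intro p hp
  congr 1
  push_cast
  rw [two_mul_dvd]

lemma YY_succ (l k : ℕ) (M : ℤ) :
    YY (l + 1) (k + 1) k (2 ^ (l + 1) * M) =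
      1 / 2 * YY l (k + 1) k (2 ^ l * M) + 1 / 2 * YY l k k (2 ^ l * M) := by
  unfold YY
  rw [nn_succ]
  push_cast
  rw [pow_succ (2 : ℝ)]
  field_simp

lemma YY_succ_zero (l : ℕ) (M : ℤ) :
    YY (l + 1) 0 0 (2 ^ (l + 1) * M) = 1 / 2 * YY l 0 0 (2 ^ l * M) := by
  unfold YY
  rw [nn_succ_zero, pow_succ (2 : ℝ)]
  field_simp

open Classical in
/-- the weighted count of endpoints -/
noncomputable def GG (α β : ℝ) (W : Set ℤ) (L : ℕ) (x : ℝ) : ℝ :=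
  ∑ k ∈ range (L + 1), (1 / (3 ^ k * x / 2 ^ L)) *
    ∑ M ∈ (JJ α β (3 ^ k * x / 2 ^ L)).filter (· ∈ W), YY L k k (2 ^ L * M)

lemma sum_Bset (α β : ℝ) (W : Set ℤ) (L : ℕ) {x : ℝ} (hx : 0 < x) :
    (∑ p ∈ D L, ((Bset α β W L x p).card : ℝ)) / x = GG α β W L x := by
  classical
  have h1 : ∑ p ∈ D L, ((Bset α β W L x p).card : ℝ) =
      ∑ k ∈ range (L + 1), ∑ p ∈ (D L).filter (fun p => p.1 = k), ((Bset α β W L x p).card : ℝ) := by
    rw [Finset.sum_fiberwise_of_maps_to]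
    intro p hp
    have := D_le hp
    exact Finset.mem_range.2 (by omega)
  rw [h1, Finset.sum_div]
  unfold GG
  apply Finset.sum_congr rfl
  intro k hk
  have h2 : ∑ p ∈ (D L).filter (fun p => p.1 = k), ((Bset α β W L x p).card : ℝ) =
      ∑ M ∈ (JJ α β (3 ^ k * x / 2 ^ L)).filter (· ∈ W), (nn L k k (2 ^ L * M) : ℝ) := by
    have e1 : ∀ p ∈ (D L).filter (fun p => p.1 = k), ((Bset α β W L x p).card : ℝ) =
        ∑ M ∈ (JJ α β (3 ^ k * x / 2 ^ L)).filter (· ∈ W),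
          (if (3 : ℤ) ^ k ∣ 2 ^ L * M - p.2 then (1 : ℝ) else 0) := by
      intro p hp
      have hpk : p.1 = k := (Finset.mem_filter.1 hp).2
      rw [← Finset.sum_filter, Finset.sum_const, nsmul_eq_mul, mul_one, Finset.filter_filter]
      unfold Bset
      rw [hpk]
    rw [Finset.sum_congr rfl e1, Finset.sum_comm]
    apply Finset.sum_congr rfl
    intro M hM
    rw [← Finset.sum_filter, Finset.sum_const, nsmul_eq_mul, mul_one, Finset.filter_filter]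
    rfl
  rw [h2, Finset.sum_div, Finset.mul_sum]
  apply Finset.sum_congr rfl
  intro M hM
  unfold YY
  field_simp

/-- fraction -/
noncomputable def FJ (α β : ℝ) (W : Set ℤ) (L : ℕ) (x : ℝ) : ℝ := (cntW α β W L x : ℝ) / x

lemma FJ_sub_GG {α β : ℝ} (hαβ : α ≤ β) (W : Set ℤ) (L : ℕ) {x : ℝ} (hx : 0 < x) :
    |FJ α β W L x - GG α β W L x| ≤ 2 ^ L / x := by
  rw [← sum_Bset α β W L hx]
  unfold FJ
  rw [← sub_div, abs_div, abs_of_pos hx]
  gcongr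
  exact cntW_sub hαβ W L hx

open Classical in
/-- the difference of the weighted counts -/
lemma GG_diff (α β : ℝ) (W : Set ℤ) (l : ℕ) {x : ℝ} (hx : 0 < x) :
    GG α β W (l + 1) x - 1 / 2 * GG α β W l (x / 2) - 1 / 2 * GG α β W l (3 * x / 2) =
      ∑ k ∈ range (l + 1), (1 / (3 ^ (k + 1) * x / 2 ^ (l + 1))) *
        ∑ M ∈ (JJ α β (3 ^ (k + 1) * x / 2 ^ (l + 1))).filter (· ∈ W),
          (gg (l + 1) (k + 1) k (2 ^ (l + 1) * M) - 1 / 2 * gg l (k + 1) k (2 ^ l * M)) := by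
  have hA : GG α β W (l + 1) x = (∑ k ∈ range (l + 1), (1 / (3 ^ (k + 1) * x / 2 ^ (l + 1))) *
      ∑ M ∈ (JJ α β (3 ^ (k + 1) * x / 2 ^ (l + 1))).filter (· ∈ W),
        YY (l + 1) (k + 1) (k + 1) (2 ^ (l + 1) * M)) +
      (1 / (3 ^ 0 * x / 2 ^ (l + 1))) *
      ∑ M ∈ (JJ α β (3 ^ 0 * x / 2 ^ (l + 1))).filter (· ∈ W), YY (l + 1) 0 0 (2 ^ (l + 1) * M) := by
    unfold GG
    rw [Finset.sum_range_succ' _ (l + 1)]
  have hB : GG α β W l (x / 2) = (∑ k ∈ range (l + 1), (1 / (3 ^ (k + 1) * x / 2 ^ (l + 1))) *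
      ∑ M ∈ (JJ α β (3 ^ (k + 1) * x / 2 ^ (l + 1))).filter (· ∈ W),
        YY l (k + 1) (k + 1) (2 ^ l * M)) +
      (1 / (3 ^ 0 * x / 2 ^ (l + 1))) *
      ∑ M ∈ (JJ α β (3 ^ 0 * x / 2 ^ (l + 1))).filter (· ∈ W), YY l 0 0 (2 ^ l * M) := by
    rw [← Finset.sum_range_succ' (fun k => (1 / (3 ^ k * x / 2 ^ (l + 1))) *
      ∑ M ∈ (JJ α β (3 ^ k * x / 2 ^ (l + 1))).filter (· ∈ W), YY l k k (2 ^ l * M)) (l + 1),
      Finset.sum_range_succ _ (l + 1)]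
    have e0 : (1 / (3 ^ (l + 1) * x / 2 ^ (l + 1))) *
      ∑ M ∈ (JJ α β (3 ^ (l + 1) * x / 2 ^ (l + 1))).filter (· ∈ W), YY l (l + 1) (l + 1) (2 ^ l * M) = 0 := by
      rw [Finset.sum_eq_zero, mul_zero]
      intro M _
      exact YY_zero_of_lt (by omega) _ _
    rw [e0, add_zero]
    unfold GG
    apply Finset.sum_congr rfl
    intro k _
    have e : (3 : ℝ) ^ k * (x / 2) / 2 ^ l = 3 ^ k * x / 2 ^ (l + 1) := by
      rw [pow_succ]; field_simp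
    rw [e]
  have hC : GG α β W l (3 * x / 2) = ∑ k ∈ range (l + 1), (1 / (3 ^ (k + 1) * x / 2 ^ (l + 1))) *
      ∑ M ∈ (JJ α β (3 ^ (k + 1) * x / 2 ^ (l + 1))).filter (· ∈ W), YY l k k (2 ^ l * M) := by
    unfold GG
    apply Finset.sum_congr rfl
    intro k _
    have e : (3 : ℝ) ^ k * (3 * x / 2) / 2 ^ l = 3 ^ (k + 1) * x / 2 ^ (l + 1) := by
      rw [pow_succ, pow_succ]; field_simp
    rw [e]
  rw [hA, hB, hC]
  have e0 : (1 / (3 ^ 0 * x / 2 ^ (l + 1))) *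
      ∑ M ∈ (JJ α β (3 ^ 0 * x / 2 ^ (l + 1))).filter (· ∈ W), YY (l + 1) 0 0 (2 ^ (l + 1) * M) =
      1 / 2 * ((1 / (3 ^ 0 * x / 2 ^ (l + 1))) *
      ∑ M ∈ (JJ α β (3 ^ 0 * x / 2 ^ (l + 1))).filter (· ∈ W), YY l 0 0 (2 ^ l * M)) := by
    simp_rw [YY_succ_zero]
    rw [← Finset.mul_sum]
    ring
  rw [e0, mul_add]
  rw [show ∀ a b c d : ℝ, a + b - (c + b) - d = a - c - d by intros; ring]
  rw [Finset.mul_sum, Finset.mul_sum, ← Finset.sum_sub_distrib, ← Finset.sum_sub_distrib]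
  apply Finset.sum_congr rfl
  intro k _
  rw [show ∀ a b c d : ℝ, a * b - 1 / 2 * (a * c) - 1 / 2 * (a * d) = a * (b - 1 / 2 * c - 1 / 2 * d) by
    intros; ring]
  congr 1
  rw [Finset.mul_sum, Finset.mul_sum, ← Finset.sum_sub_distrib, ← Finset.sum_sub_distrib]
  apply Finset.sum_congr rfl
  intro M _
  rw [gg_eq, gg_eq, YY_succ]
  ring

end Pool.Agent.H39.ND
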