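import Pool.Agent.H39.ND.CountB
import Pool.Agent.H30.PD.Bin

/-!
# The one step master identity

`FJ α β W L x` is the number of integers `m ∈ [αx, βx]` with `T^[L] m ∈ W`, divided by `x`.
`master`: `FJ (l+1) x = FJ l (x/2)/2 + FJ l (3x/2)/2 + O(l^{-B} + 2^l/x)`, for every `B`, uniformly in `W`.
-/

set_option autoImplicit false

namespace Pool.Agent.H39.ND

open Finset Pool.Agent.H30 Pool.Agent.H30.PD

lemma nn_congr (L k : ℕ) {r : ℕ} {u u' : ℤ} (h : (3 : ℤ) ^ r ∣ u - u') : nn L k r u = nn L k r u' := by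
  classical
  unfold nn
  congr 1
  apply Finset.filter_congr
  intro p _
  have : (3 : ℤ) ^ r ∣ u - p.2 ↔ (3 : ℤ) ^ r ∣ u' - p.2 := by
    rw [show u' - (p.2 : ℤ) = (u - p.2) - (u - u') by ring]
    exact (dvd_sub_left h).symm
  rw [this]

lemma gg_congr (L : ℕ) {q r : ℕ} (hr : r ≤ q) {u u' : ℤ} (h : (3 : ℤ) ^ q ∣ u - u') :
    gg L q r u = gg L q r u' := by
  rw [gg_eq, gg_eq]
  unfold YY
  rw [nn_congr L q h, nn_congr L q ((pow_dvd_pow 3 hr).trans h)]

/-- mean of the fine-coarse difference -/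
noncomputable def mu (L q r : ℕ) : ℝ := (∑ u ∈ range (3 ^ q), |gg L q r u|) / 3 ^ q

lemma mu_nonneg (L q r : ℕ) : 0 ≤ mu L q r := by unfold mu; positivity

lemma sum_gg_unit (L : ℕ) {q r : ℕ} (hr : r ≤ q) (a : ℕ) :
    ∑ u ∈ range (3 ^ q), |gg L q r (2 ^ a * u)| = 3 ^ q * mu L q r := by
  have h := sum_mul_unit (N := 3 ^ q) (by positivity) (fun u => |gg L q r u|) (a := 2 ^ a) ?_ ?_
  · rw [h]
    unfold mu
    field_simp
  · intro u
    rw [gg_congr L hr (u := u + ((3 ^ q : ℕ) : ℤ)) (u' := u)]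
    push_cast
    simp
  · push_cast
    apply IsCoprime.pow
    exact ⟨-1, 1, by norm_num⟩

/-- number of `u` in a class -/
lemma class_count (q : ℕ) {r : ℕ} (hr : r ≤ q) (c : ℤ) :
    ∑ u ∈ range (3 ^ q), (if (3 : ℤ) ^ r ∣ (u : ℤ) - c then (1 : ℝ) else 0) ≤ 2 * 3 ^ (q - r) := by
  classical
  have h1 := sum_interval_le (N := 3 ^ r) (by positivity)
    (fun u : ℤ => if (3 : ℤ) ^ r ∣ u - c then (1 : ℝ) else 0) ?_ ?_
    ((range (3 ^ q)).map ⟨fun n : ℕ => (n : ℤ), Nat.cast_injective⟩) (x := 0) (y := 3 ^ q - 1) ?_ ?_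
  · rw [Finset.sum_map] at h1
    simp only [Function.Embedding.coeFn_mk] at h1
    refine h1.trans ?_
    have h2 : ∑ u ∈ range (3 ^ r), (if (3 : ℤ) ^ r ∣ (u : ℤ) - c then (1 : ℝ) else 0) ≤ 1 := by
      rw [← Finset.sum_filter, Finset.sum_const, nsmul_eq_mul, mul_one]
      have : ((range (3 ^ r)).filter fun u : ℕ => (3 : ℤ) ^ r ∣ (u : ℤ) - c).card ≤ 1 := by
        rw [Finset.card_le_one]
        intro a ha b hb
        obtain ⟨ha1, ha2⟩ := Finset.mem_filter.1 ha
        obtain ⟨hb1, hb2⟩ := Finset.mem_filter.1 hb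
        have h3 : (3 : ℤ) ^ r ∣ (a : ℤ) - b := by
          have := dvd_sub ha2 hb2
          rwa [sub_sub_sub_cancel_right] at this
        have h4 : |(a : ℤ) - b| < (3 : ℤ) ^ r := by
          have a1 := Finset.mem_range.1 ha1
          have b1 := Finset.mem_range.1 hb1
          have a2 : (a : ℤ) < (3 : ℤ) ^ r := by exact_mod_cast a1
          have b2 : (b : ℤ) < (3 : ℤ) ^ r := by exact_mod_cast b1
          rw [abs_lt]; constructor <;> linarith [Int.natCast_nonneg a, Int.natCast_nonneg b]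
        have := Int.eq_zero_of_abs_lt_dvd h3 h4
        omega
      exact_mod_cast this
    have h3 : (3 : ℝ) ^ q = 3 ^ (q - r) * 3 ^ r := by rw [← pow_add]; congr 1; omega
    have h4 : (1 : ℝ) ≤ 3 ^ (q - r) := one_le_pow₀ (by norm_num)
    have h5 : ((3 : ℝ) ^ q - 1 - 0 + 1) / ((3 ^ r : ℕ) : ℝ) = 3 ^ (q - r) := by
      push_cast
      rw [h3]; field_simp; ring
    rw [h5]
    calc (3 ^ (q - r) + 1) * ∑ u ∈ range (3 ^ r), (if (3 : ℤ) ^ r ∣ (u : ℤ) - c then (1 : ℝ) else 0)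
        ≤ (3 ^ (q - r) + 1) * 1 := mul_le_mul_of_nonneg_left h2 (by positivity)
      _ ≤ _ := by linarith
  · intro u
    have : (3 : ℤ) ^ r ∣ u + ((3 ^ r : ℕ) : ℤ) - c ↔ (3 : ℤ) ^ r ∣ u - c := by
      push_cast
      rw [show u + (3 : ℤ) ^ r - c = (u - c) + 3 ^ r by ring]
      exact dvd_add_self_right
    simp only [this]
  · intro u
    split_ifs <;> norm_num
  · have : (1 : ℝ) ≤ 3 ^ q := one_le_pow₀ (by norm_num)
    linarith
  · intro m hm
    obtain ⟨n, hn, rfl⟩ := Finset.mem_map.1 hm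
    have hn := Finset.mem_range.1 hn
    simp only [Function.Embedding.coeFn_mk, Int.cast_natCast]
    refine ⟨by positivity, ?_⟩
    have : (n : ℝ) + 1 ≤ 3 ^ q := by exact_mod_cast hn
    linarith

lemma sum_YY (L q : ℕ) {r : ℕ} (hr : r ≤ q) :
    ∑ u ∈ range (3 ^ q), YY L q r u ≤ 2 * 3 ^ q * bin L q := by
  classical
  have e1 : ∀ u : ℕ, YY L q r u = 3 ^ r / 2 ^ L * ∑ p ∈ (D L).filter (fun p => p.1 = q),
      (if (3 : ℤ) ^ r ∣ (u : ℤ) - p.2 then (1 : ℝ) else 0) := by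
    intro u
    unfold YY nn
    rw [← Finset.sum_filter, Finset.sum_const, nsmul_eq_mul, mul_one, Finset.filter_filter]
    ring
  simp_rw [e1]
  rw [← Finset.mul_sum, Finset.sum_comm]
  have h2 : ∑ p ∈ (D L).filter (fun p => p.1 = q), ∑ u ∈ range (3 ^ q),
      (if (3 : ℤ) ^ r ∣ (u : ℤ) - p.2 then (1 : ℝ) else 0) ≤ (L.choose q : ℝ) * (2 * 3 ^ (q - r)) := by
    calc _ ≤ ∑ p ∈ (D L).filter (fun p => p.1 = q), (2 * 3 ^ (q - r) : ℝ) :=
          Finset.sum_le_sum fun p _ => class_count q hr p.2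
      _ = _ := by
          rw [Finset.sum_const, nsmul_eq_mul, card_filter_fst]
  calc _ ≤ 3 ^ r / 2 ^ L * ((L.choose q : ℝ) * (2 * 3 ^ (q - r))) :=
        mul_le_mul_of_nonneg_left h2 (by positivity)
    _ = 2 * (3 ^ (q - r) * 3 ^ r) * bin L q := by unfold bin; ring
    _ = 2 * 3 ^ q * bin L q := by
        rw [← pow_add]
        congr 3
        omega

/-- trivial bound -/
lemma mu_le (L q : ℕ) {r : ℕ} (hr : r ≤ q) : mu L q r ≤ 4 * bin L q := by
  unfold mu
  rw [div_le_iff₀ (by positivity)]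
  calc ∑ u ∈ range (3 ^ q), |gg L q r u| ≤ ∑ u ∈ range (3 ^ q), (YY L q q u + YY L q r u) := by
        apply Finset.sum_le_sum
        intro u _
        rw [gg_eq]
        have h1 := YY_nonneg L q q u
        have h2 := YY_nonneg L q r u
        rw [abs_le]; constructor <;> linarith
    _ ≤ 2 * 3 ^ q * bin L q + 2 * 3 ^ q * bin L q := by
        rw [Finset.sum_add_distrib]
        exact add_le_add (sum_YY L q le_rfl) (sum_YY L q hr)
    _ = _ := by ring

/-- the mixing theorem, summed over the number of heads -/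
theorem sum_mu (B : ℕ) : ∃ C : ℝ, 0 < C ∧ ∀ L : ℕ, 1 ≤ L →
    ∑ k ∈ range (L + 1), mu L (k + 1) k ≤ C / (L : ℝ) ^ B := by
  classical
  obtain ⟨q0, hmix⟩ := mix (B + 1)
  set L0 : ℕ := 3 * q0 + 100 with hL0
  set C1 : ℝ := 2 * (5 / 2) ^ (B + 1) + 8 * (B.factorial / (8 / 625) ^ B) with hC1
  set C2 : ℝ := 4 * (L0 : ℝ) ^ B with hC2
  have hC1' : 0 < C1 := by positivity
  have hC2' : 0 ≤ C2 := by positivity
  refine ⟨C1 + C2, by linarith, fun L hL => ?_⟩
  have hLr : (1 : ℝ) ≤ L := by exact_mod_cast hL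
  have hL0' : (0 : ℝ) < L := by linarith
  rcases Nat.lt_or_ge L L0 with hlt | hge
  · -- small `L`
    have h1 : ∑ k ∈ range (L + 1), mu L (k + 1) k ≤ 4 := by
      calc ∑ k ∈ range (L + 1), mu L (k + 1) k ≤ ∑ k ∈ range (L + 1), 4 * bin L (k + 1) :=
            Finset.sum_le_sum fun k _ => mu_le L (k + 1) (Nat.le_succ k)
        _ = 4 * ∑ k ∈ range (L + 1), bin L (k + 1) := by rw [Finset.mul_sum]
        _ ≤ 4 * ∑ k ∈ range (L + 2), bin L k := by
            rw [Finset.sum_range_succ' _ (L + 1)]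
            have := bin_nonneg L 0
            linarith
        _ ≤ 4 * 1 := by
            have := sum_bin_le L (L + 2)
            linarith
        _ = 4 := by norm_num
    refine h1.trans ?_
    rw [le_div_iff₀ (by positivity)]
    have h2 : (L : ℝ) ^ B ≤ (L0 : ℝ) ^ B := by
      apply pow_le_pow_left₀ hL0'.le
      exact_mod_cast hlt.le
    have : 4 * (L : ℝ) ^ B ≤ C2 := by rw [hC2]; linarith
    linarith
  · have hge' : 3 * q0 + 100 ≤ L := hge
    -- pointwise bound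
    have hpt : ∀ k ∈ range (L + 1), mu L (k + 1) k ≤ (5 / (2 * (L : ℝ))) ^ (B + 1) +
        (if (8 / 50 : ℝ) * L ≤ |2 * ((k + 1 : ℕ) : ℝ) - L| then 4 * bin L (k + 1) else 0) := by
      intro k _
      by_cases hcone : 2 * L ≤ 5 * (k + 1) ∧ 50 * (k + 1) ≤ 29 * L
      · have h1 := hmix (k + 1) k L (by omega) (by omega) (by omega) (by omega)
        have h2 : mu L (k + 1) k ≤ 1 / ((k + 1 : ℕ) : ℝ) ^ (B + 1) := h1
        have h3 : 1 / ((k + 1 : ℕ) : ℝ) ^ (B + 1) ≤ (5 / (2 * (L : ℝ))) ^ (B + 1) := by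
          rw [← one_div_pow]
          apply pow_le_pow_left₀ (by positivity)
          rw [div_le_div_iff₀ (by positivity) (by positivity)]
          have : (2 : ℝ) * L ≤ 5 * ((k + 1 : ℕ) : ℝ) := by exact_mod_cast hcone.1
          linarith
        have h4 : (0 : ℝ) ≤ (if (8 / 50 : ℝ) * L ≤ |2 * ((k + 1 : ℕ) : ℝ) - L| then 4 * bin L (k + 1)
            else 0) := by
          have := bin_nonneg L (k + 1)
          split_ifs <;> linarith
        linarith
      · have h1 : (8 / 50 : ℝ) * L ≤ |2 * ((k + 1 : ℕ) : ℝ) - L| := by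
          by_cases hc1 : 2 * L ≤ 5 * (k + 1)
          · have hc2 : 29 * L < 50 * (k + 1) := by
              by_contra hcc
              exact hcone ⟨hc1, by omega⟩
            have : (29 : ℝ) * L < 50 * ((k + 1 : ℕ) : ℝ) := by exact_mod_cast hc2
            refine le_trans ?_ (le_abs_self _)
            linarith
          · have : (5 : ℝ) * ((k + 1 : ℕ) : ℝ) < 2 * L := by
              have : 5 * (k + 1) < 2 * L := by omega
              exact_mod_cast this
            refine le_trans ?_ (neg_le_abs _)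
            linarith
        rw [if_pos h1]
        have := mu_le L (k + 1) (Nat.le_succ k)
        have h5 : (0 : ℝ) ≤ (5 / (2 * (L : ℝ))) ^ (B + 1) := by positivity
        linarith
    have h1 := Finset.sum_le_sum hpt
    rw [Finset.sum_add_distrib] at h1
    have h2 : ∑ k ∈ range (L + 1), (if (8 / 50 : ℝ) * L ≤ |2 * ((k + 1 : ℕ) : ℝ) - L| then
        4 * bin L (k + 1) else 0) ≤ 8 * Real.exp (-(8 / 625 : ℝ) * L) := by
      have e1 : ∑ k ∈ range (L + 1), (if (8 / 50 : ℝ) * L ≤ |2 * ((k + 1 : ℕ) : ℝ) - L| then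
          4 * bin L (k + 1) else 0) ≤ ∑ k ∈ range (L + 2), (if (8 / 50 : ℝ) * L ≤ |2 * (k : ℝ) - L| then
          4 * bin L k else 0) := by
        rw [Finset.sum_range_succ' (fun k : ℕ => if (8 / 50 : ℝ) * L ≤ |2 * (k : ℝ) - L| then
          4 * bin L k else 0) (L + 1)]
        have : (0 : ℝ) ≤ (if (8 / 50 : ℝ) * L ≤ |2 * ((0 : ℕ) : ℝ) - L| then 4 * bin L 0 else 0) := by
          have := bin_nonneg L 0
          split_ifs <;> linarith
        linarith
      have e2 : ∑ k ∈ range (L + 2), (if (8 / 50 : ℝ) * L ≤ |2 * (k : ℝ) - L| then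
          4 * bin L k else 0) = 4 * ∑ k ∈ (range (L + 1)).filter
            (fun k : ℕ => (8 / 50 : ℝ) * L ≤ |2 * (k : ℝ) - L|), bin L k := by
        rw [Finset.sum_range_succ _ (L + 1), bin_eq_zero (show L < L + 1 by omega)]
        simp only [mul_zero, ite_self, add_zero]
        rw [Finset.mul_sum, Finset.sum_filter]
      have e3 := bin_tail (n := L) hL (x := 8 / 50 * L) (by positivity)
      rw [e2] at e1
      refine e1.trans ?_
      calc 4 * ∑ k ∈ (range (L + 1)).filter (fun k : ℕ => (8 / 50 : ℝ) * L ≤ |2 * (k : ℝ) - L|), bin L k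
          ≤ 4 * (2 * Real.exp (-((8 / 50 * (L : ℝ)) ^ 2) / (2 * L))) := by
            apply mul_le_mul_of_nonneg_left _ (by norm_num)
            convert e3
        _ = 8 * Real.exp (-(8 / 625 : ℝ) * L) := by
            rw [← mul_assoc]
            norm_num
            field_simp
            norm_num
    have h3 : Real.exp (-(8 / 625 : ℝ) * L) ≤ (B.factorial / (8 / 625) ^ B) / (L : ℝ) ^ B := by
      have h4 := Real.pow_div_factorial_le_exp (8 / 625 * (L : ℝ)) (by positivity) B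
      rw [show (-(8 / 625 : ℝ) * L) = -(8 / 625 * L) by ring, Real.exp_neg, inv_le_comm₀ (Real.exp_pos _)
        (by positivity)]
      refine le_trans (le_of_eq ?_) h4
      rw [mul_pow]
      field_simp
    have h5 : ∑ k ∈ range (L + 1), (5 / (2 * (L : ℝ))) ^ (B + 1) ≤ 2 * (5 / 2) ^ (B + 1) / (L : ℝ) ^ B := by
      rw [Finset.sum_const, nsmul_eq_mul, Finset.card_range]
      have e : (5 / (2 * (L : ℝ))) ^ (B + 1) = (5 / 2) ^ (B + 1) / (L : ℝ) ^ (B + 1) := by
        rw [← div_pow]; congr 1; field_simp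
      rw [e, pow_succ (L : ℝ)]
      push_cast
      rw [← mul_div_assoc, div_le_div_iff₀ (by positivity) (by positivity)]
      have h6 : (L : ℝ) + 1 ≤ 2 * L := by linarith
      have h7 : 0 ≤ (5 / 2 : ℝ) ^ (B + 1) * (L : ℝ) ^ B := by positivity
      nlinarith
    calc ∑ k ∈ range (L + 1), mu L (k + 1) k
        ≤ 2 * (5 / 2) ^ (B + 1) / (L : ℝ) ^ B + 8 * ((B.factorial / (8 / 625) ^ B) / (L : ℝ) ^ B) := by
          linarith
      _ = C1 / (L : ℝ) ^ B := by rw [hC1]; ring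
      _ ≤ (C1 + C2) / (L : ℝ) ^ B := by
          apply div_le_div_of_nonneg_right _ (by positivity)
          linarith

open Classical in
/-- bound of the difference of the weighted counts -/
lemma GG_diff_le {α β : ℝ} (hα : -1 ≤ α) (hαβ : α ≤ β) (hβ : β ≤ 1) (W : Set ℤ) (l : ℕ) {x : ℝ}
    (hx : 2 ^ l ≤ x) :
    |GG α β W (l + 1) x - 1 / 2 * GG α β W l (x / 2) - 1 / 2 * GG α β W l (3 * x / 2)| ≤
      6 * ∑ k ∈ range (l + 1), (mu (l + 1) (k + 1) k + 1 / 2 * mu l (k + 1) k) := by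
  have hx0 : 0 < x := lt_of_lt_of_le (by positivity) hx
  rw [GG_diff α β W l hx0, Finset.mul_sum]
  refine (Finset.abs_sum_le_sum_abs _ _).trans ?_
  apply Finset.sum_le_sum
  intro k _
  set y : ℝ := 3 ^ (k + 1) * x / 2 ^ (l + 1) with hy
  have hy0 : 0 < y := by positivity
  set δ : ℤ → ℝ := fun M => |gg (l + 1) (k + 1) k (2 ^ (l + 1) * M)| + 1 / 2 * |gg l (k + 1) k (2 ^ l * M)|
    with hδ
  have hper : ∀ u : ℤ, δ (u + ((3 ^ (k + 1) : ℕ) : ℤ)) = δ u := by
    intro u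
    simp only [hδ]
    rw [gg_congr (l + 1) (Nat.le_succ k) (u := 2 ^ (l + 1) * (u + ((3 ^ (k + 1) : ℕ) : ℤ)))
      (u' := 2 ^ (l + 1) * u), gg_congr l (Nat.le_succ k) (u := 2 ^ l * (u + ((3 ^ (k + 1) : ℕ) : ℤ)))
      (u' := 2 ^ l * u)]
    · push_cast
      rw [← mul_sub, add_sub_cancel_left]
      exact Dvd.intro_left _ rfl
    · push_cast
      rw [← mul_sub, add_sub_cancel_left]
      exact Dvd.intro_left _ rfl
  have hδ0 : ∀ u, 0 ≤ δ u := by intro u; simp only [hδ]; positivity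
  have h1 : |∑ M ∈ (JJ α β y).filter (· ∈ W),
      (gg (l + 1) (k + 1) k (2 ^ (l + 1) * M) - 1 / 2 * gg l (k + 1) k (2 ^ l * M))| ≤
      ∑ M ∈ JJ α β y, δ M := by
    refine (Finset.abs_sum_le_sum_abs _ _).trans ?_
    refine (Finset.sum_le_sum_of_subset_of_nonneg (Finset.filter_subset _ _)
      (fun i _ _ => abs_nonneg _)).trans ?_
    apply Finset.sum_le_sum
    intro M _
    simp only [hδ]
    refine (abs_sub _ _).trans ?_
    rw [abs_mul, abs_of_pos (by norm_num : (0 : ℝ) < 1 / 2)]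
  have h2 := sum_interval_le (N := 3 ^ (k + 1)) (by positivity) δ hper hδ0 (JJ α β y)
    (x := α * y) (y := β * y) (by nlinarith) (fun m hm => mem_JJ.1 hm)
  have h3 : ∑ u ∈ range (3 ^ (k + 1)), δ u = 3 ^ (k + 1) * (mu (l + 1) (k + 1) k + 1 / 2 * mu l (k + 1) k) := by
    simp only [hδ]
    rw [Finset.sum_add_distrib, ← Finset.mul_sum, sum_gg_unit (l + 1) (q := k + 1) (Nat.le_succ k),
      sum_gg_unit l (q := k + 1) (Nat.le_succ k)]
    ring
  rw [h3] at h2
  set m := mu (l + 1) (k + 1) k + 1 / 2 * mu l (k + 1) k with hm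
  have hm0 : 0 ≤ m := by
    have := mu_nonneg (l + 1) (k + 1) k
    have := mu_nonneg l (k + 1) k
    positivity
  rw [abs_mul, abs_of_pos (by positivity : 0 < 1 / y)]
  have h4 : 1 / y * |∑ M ∈ (JJ α β y).filter (· ∈ W),
      (gg (l + 1) (k + 1) k (2 ^ (l + 1) * M) - 1 / 2 * gg l (k + 1) k (2 ^ l * M))| ≤
      1 / y * (((β * y - α * y + 1) / ((3 ^ (k + 1) : ℕ) : ℝ) + 1) * (3 ^ (k + 1) * m)) := by
    apply mul_le_mul_of_nonneg_left (h1.trans h2) (by positivity)
  refine h4.trans ?_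
  have e1 : 1 / y * (((β * y - α * y + 1) / ((3 ^ (k + 1) : ℕ) : ℝ) + 1) * (3 ^ (k + 1) * m)) =
      ((β - α) + 1 / y + 3 ^ (k + 1) / y) * m := by
    push_cast
    field_simp
  rw [e1]
  apply mul_le_mul_of_nonneg_right _ hm0
  have e2 : (3 : ℝ) ^ (k + 1) / y = 2 ^ (l + 1) / x := by
    rw [hy]; field_simp
  have e3 : (2 : ℝ) ^ (l + 1) / x ≤ 2 := by
    rw [div_le_iff₀ hx0, pow_succ]; linarith
  have e4 : 1 / y ≤ 3 ^ (k + 1) / y := by
    apply div_le_div_of_nonneg_right _ hy0.le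
    exact one_le_pow₀ (by norm_num)
  linarith

/-- **one step master identity** -/
theorem master (B : ℕ) : ∃ C : ℝ, 0 < C ∧ ∀ α β : ℝ, -1 ≤ α → α ≤ β → β ≤ 1 →
    ∀ (W : Set ℤ) (l : ℕ) (x : ℝ), 1 ≤ l → 2 ^ l ≤ x →
    |FJ α β W (l + 1) x - 1 / 2 * FJ α β W l (x / 2) - 1 / 2 * FJ α β W l (3 * x / 2)| ≤
      C * (1 / (l : ℝ) ^ B + 2 ^ l / x) := by
  obtain ⟨C, hC, hsum⟩ := sum_mu B
  refine ⟨9 * C + 4, by positivity, fun α β hα hαβ hβ W l x hl hx => ?_⟩
  have hx0 : 0 < x := lt_of_lt_of_le (by positivity) hx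
  have hl0 : (0 : ℝ) < l := by exact_mod_cast hl
  have h1 := GG_diff_le hα hαβ hβ W l hx
  have h2 := FJ_sub_GG hαβ W (l + 1) hx0
  have h3 := FJ_sub_GG hαβ W l (show 0 < x / 2 by positivity)
  have h4 := FJ_sub_GG hαβ W l (show 0 < 3 * x / 2 by positivity)
  have h5 : ∑ k ∈ range (l + 1), (mu (l + 1) (k + 1) k + 1 / 2 * mu l (k + 1) k) ≤
      3 / 2 * (C / (l : ℝ) ^ B) := by
    rw [Finset.sum_add_distrib, ← Finset.mul_sum]
    have e1 := hsum l hl
    have e2 : ∑ k ∈ range (l + 1), mu (l + 1) (k + 1) k ≤ C / (l : ℝ) ^ B := by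
      calc ∑ k ∈ range (l + 1), mu (l + 1) (k + 1) k ≤ ∑ k ∈ range (l + 1 + 1), mu (l + 1) (k + 1) k := by
            apply Finset.sum_le_sum_of_subset_of_nonneg
            · exact Finset.range_mono (by omega)
            · intro i _ _; exact mu_nonneg _ _ _
        _ ≤ C / ((l + 1 : ℕ) : ℝ) ^ B := hsum (l + 1) (by omega)
        _ ≤ C / (l : ℝ) ^ B := by
            apply div_le_div_of_nonneg_left hC.le (by positivity)
            apply pow_le_pow_left₀ hl0.le
            push_cast; linarith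
    linarith
  have e1 : (2 : ℝ) ^ (l + 1) / x = 2 * (2 ^ l / x) := by rw [pow_succ]; ring
  have e2 : (2 : ℝ) ^ l / (x / 2) = 2 * (2 ^ l / x) := by field_simp
  have e3 : (2 : ℝ) ^ l / (3 * x / 2) ≤ 1 * (2 ^ l / x) := by
    rw [one_mul]
    apply div_le_div_of_nonneg_left (by positivity) hx0
    linarith
  rw [e1] at h2
  rw [e2] at h3
  have h4' := h4.trans e3
  have hpos : 0 ≤ 2 ^ l / x := by positivity
  have hpos2 : 0 ≤ 1 / (l : ℝ) ^ B := by positivity
  have hCl : C / (l : ℝ) ^ B = C * (1 / (l : ℝ) ^ B) := by ring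
  rw [hCl] at h5
  rw [abs_le] at *
  constructor <;> nlinarith [mul_nonneg hC.le hpos, mul_nonneg hC.le hpos2]

end Pool.Agent.H39.ND
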