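import Pool.Agent.H30.PD.NodeSum
import Pool.Agent.H30.PD.Words

/-!
Every integer `m` follows exactly one word of each length.
-/

set_option autoImplicit false

namespace Pool.Agent.H39.ND

open Finset Pool.Agent.H30 Pool.Agent.H30.PD

lemma T_even (m : ℤ) (h : Even m) : 2 * T m = m := by
  have h := Int.even_iff.1 h
  unfold T; rw [if_pos h]; omega

lemma T_odd (m : ℤ) (h : ¬ Even m) : 2 * T m = 3 * m + 1 := by
  have h := Int.odd_iff.1 (Int.not_even_iff_odd.1 h)
  unfold T; rw [if_neg (by omega)]; omega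

/-- existence of the word of `m` -/
theorem exists_word (L : ℕ) (m : ℤ) :
    ∃ p ∈ D L, (3 : ℤ) ^ p.1 * m = 2 ^ L * T^[L] m - p.2 := by
  induction L generalizing m with
  | zero => exact ⟨(0, 0), by simp [D], by simp⟩
  | succ L ih =>
    obtain ⟨p, hp, h⟩ := ih (T m)
    rw [Function.iterate_succ_apply]
    by_cases hm : Even m
    · refine ⟨(p.1, 2 * p.2), (mem_D_succ _ _).2 ⟨p, hp, Or.inl rfl⟩, ?_⟩
      have h2 := T_even m hm
      push_cast
      calc (3 : ℤ) ^ p.1 * m = 3 ^ p.1 * (2 * T m) := by rw [h2]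
        _ = 2 * (3 ^ p.1 * T m) := by ring
        _ = _ := by rw [h]; ring
    · refine ⟨(p.1 + 1, 2 * p.2 + 3 ^ p.1), (mem_D_succ _ _).2 ⟨p, hp, Or.inr rfl⟩, ?_⟩
      have h2 := T_odd m hm
      push_cast
      calc (3 : ℤ) ^ (p.1 + 1) * m = 3 ^ p.1 * (3 * m + 1) - 3 ^ p.1 := by ring
        _ = 3 ^ p.1 * (2 * T m) - 3 ^ p.1 := by rw [h2]
        _ = 2 * (3 ^ p.1 * T m) - 3 ^ p.1 := by ring
        _ = _ := by rw [h]; ring

lemma odd_three_pow (k : ℕ) : Odd ((3 : ℤ) ^ k) := Odd.pow (by decide)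

/-- uniqueness of the word of `m` -/
theorem unique_word (L : ℕ) (m y : ℤ) {p p' : ℕ × ℕ} (hp : p ∈ D L) (hp' : p' ∈ D L)
    (h : (3 : ℤ) ^ p.1 * m = 2 ^ L * y - p.2) (h' : (3 : ℤ) ^ p'.1 * m = 2 ^ L * y - p'.2) :
    p = p' := by
  induction L generalizing m p p' with
  | zero =>
    simp only [D, mem_singleton] at hp hp'
    rw [hp, hp']
  | succ L ih =>
    obtain ⟨q, hq, e⟩ := (mem_D_succ _ _).1 hp
    obtain ⟨q', hq', e'⟩ := (mem_D_succ _ _).1 hp'
    have even_case : ∀ (r : ℕ × ℕ), (3 : ℤ) ^ r.1 * m = 2 ^ (L + 1) * y - (2 * r.2 : ℕ) → Even m := by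
      intro r hr
      have h4 : Even ((3 : ℤ) ^ r.1 * m) := by
        rw [hr]
        exact ⟨2 ^ L * y - r.2, by push_cast; ring⟩
      rcases Int.even_mul.1 h4 with h5 | h5
      · exact absurd h5 (Int.not_even_iff_odd.2 (odd_three_pow _))
      · exact h5
    have odd_case : ∀ (r : ℕ × ℕ), (3 : ℤ) ^ (r.1 + 1) * m = 2 ^ (L + 1) * y - (2 * r.2 + 3 ^ r.1 : ℕ) →
        ¬ Even m := by
      intro r hr hm
      have h4 : Even ((3 : ℤ) ^ (r.1 + 1) * m) := hm.mul_left _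
      have h5 : (3 : ℤ) ^ r.1 = 2 * (2 ^ L * y - r.2) - 3 ^ (r.1 + 1) * m := by
        rw [hr]; push_cast; ring
      have h6 : Even ((3 : ℤ) ^ r.1) := by
        rw [h5]
        exact (even_two_mul _).sub h4
      exact Int.not_even_iff_odd.2 (odd_three_pow _) h6
    have even_step : ∀ (r : ℕ × ℕ), (3 : ℤ) ^ r.1 * m = 2 ^ (L + 1) * y - (2 * r.2 : ℕ) →
        (3 : ℤ) ^ r.1 * T m = 2 ^ L * y - r.2 := by
      intro r hr
      have h2 := T_even m (even_case r hr)
      push_cast at hr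
      have : 2 * ((3 : ℤ) ^ r.1 * T m) = 2 * (2 ^ L * y - r.2) := by
        calc 2 * ((3 : ℤ) ^ r.1 * T m) = 3 ^ r.1 * (2 * T m) := by ring
          _ = _ := by rw [h2, hr]; ring
      linarith
    have odd_step : ∀ (r : ℕ × ℕ), (3 : ℤ) ^ (r.1 + 1) * m = 2 ^ (L + 1) * y - (2 * r.2 + 3 ^ r.1 : ℕ) →
        (3 : ℤ) ^ r.1 * T m = 2 ^ L * y - r.2 := by
      intro r hr
      have h2 := T_odd m (odd_case r hr)
      push_cast at hr
      have : 2 * ((3 : ℤ) ^ r.1 * T m) = 2 * (2 ^ L * y - r.2) := by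
        calc 2 * ((3 : ℤ) ^ r.1 * T m) = 3 ^ r.1 * (2 * T m) := by ring
          _ = 3 ^ (r.1 + 1) * m + 3 ^ r.1 := by rw [h2]; ring
          _ = _ := by rw [hr]; ring
      linarith
    rcases e with e | e <;> rcases e' with e' | e' <;> subst e <;> subst e'
    · have := ih (T m) hq hq' (even_step q h) (even_step q' h')
      rw [this]
    · exact absurd (even_case q h) (odd_case q' h')
    · exact absurd (even_case q' h') (odd_case q h)
    · have := ih (T m) hq hq' (odd_step q h) (odd_step q' h')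
      rw [this]

end Pool.Agent.H39.ND
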